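import Pool.Agent.H5.Stub6

namespace Pool.Agent.Results.MP_9ca6a9_ag.No
open Pool.Agent.H5.Stub

/-- A totally real plane quartic on which degree 2 is stubborn and degree 4 is not. -/
theorem result : ∃ (n : ℕ) (S : Set (MvPolynomial (Fin (n + 1)) ℝ)),
    (∀ P ∈ S, ∃ e, P.IsHomogeneous e) ∧ TotallyReal S ∧
      ∃ d k : ℕ, 1 ≤ d ∧ d < k ∧ StubbornDeg S d ∧ ¬ StubbornDeg S k := by
  refine ⟨2, {Q}, fun P hP => ⟨4, by rw [Set.mem_singleton_iff.1 hP]; exact Q_hom⟩, totReal,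
    1, 2, le_rfl, one_lt_two, ⟨F0, F0_stub⟩, ?_⟩
  rintro ⟨F, h1, h2, h3⟩
  exact h3 (no_quartic F h1 h2)

end Pool.Agent.Results.MP_9ca6a9_ag.No
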